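import Pool.Agent.T2H18.QGap

/-!
# MP_295d38_ag: a gap principle for arbitrary endomorphisms of quasiprojective varieties

Let `Φ` be an endomorphism of a quasiprojective variety `X ⊂ ℙ^N` over `ℂ`, let `V` and `W` be closed
subsets, `W` forward invariant (for example `W = X`, or the Zariski closure of an orbit), and let
`α ∈ X ∩ W`.

**Theorem.** Suppose that no iterate `Φ^m`, `m ≥ 1`, has an orbit `z, Φ^m(z), Φ^{2m}(z), …` which is
contained in `V ∩ W`; equivalently, `V ∩ W ∩ X` contains no nonempty closed subset `Z` of `X` with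
`Φ^m(Z) ⊂ Z`, `m ≥ 1`. Then the return set `{n : Φ^n(α) ∈ V}` is exponentially sparse: there are `m₀`
and `δ > 0` such that for all large `n` it has at most `m₀` elements between `n` and `exp (δ n)`.

No condition on `X`, `Φ` (ramification, degree, dominance), `V`, `α`, or the field of definition is
made. The dynamical Mordell-Lang conjecture predicts that these return sets are finite.

The format of `X`, `Φ`, `V` is the one of the frozen statement of the problem: `X` is the set of the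
points where the forms in `A` vanish and some form in `B` does not, and `Φ` is given by forms locally.
-/

set_option autoImplicit false

namespace Pool.Agent.Results.MP_295d38_ag.QuasiprojectiveGap

/-- The closed set given by a set of forms. -/
def Closed {N : ℕ} (V : Set (Projectivization ℂ (Fin (N + 1) → ℂ))) : Prop :=
  ∃ C : Set (MvPolynomial (Fin (N + 1)) ℂ),
    (∀ F ∈ C, ∃ d : ℕ, F.IsHomogeneous d) ∧
      ∀ p : Projectivization ℂ (Fin (N + 1) → ℂ), p ∈ V ↔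
        ∀ F ∈ C, MvPolynomial.eval p.rep F = 0

/-- A locally closed subset of projective space. -/
def LocallyClosed {N : ℕ} (X : Set (Projectivization ℂ (Fin (N + 1) → ℂ))) : Prop :=
  ∃ A B : Set (MvPolynomial (Fin (N + 1)) ℂ),
    (∀ F ∈ A, ∃ d : ℕ, F.IsHomogeneous d) ∧ (∀ F ∈ B, ∃ d : ℕ, F.IsHomogeneous d) ∧
      ∀ p : Projectivization ℂ (Fin (N + 1) → ℂ), p ∈ X ↔
        ((∀ F ∈ A, MvPolynomial.eval p.rep F = 0) ∧ ∃ F ∈ B, MvPolynomial.eval p.rep F ≠ 0)

/-- `Φ` is a regular self-map of `X`. -/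
def RegularSelfMap {N : ℕ} (X : Set (Projectivization ℂ (Fin (N + 1) → ℂ)))
    (Φ : Projectivization ℂ (Fin (N + 1) → ℂ) → Projectivization ℂ (Fin (N + 1) → ℂ)) : Prop :=
  (∀ x ∈ X, Φ x ∈ X) ∧
    ∀ x ∈ X, ∃ (d e : ℕ) (F : Fin (N + 1) → MvPolynomial (Fin (N + 1)) ℂ)
      (g : MvPolynomial (Fin (N + 1)) ℂ),
      (∀ i, (F i).IsHomogeneous d) ∧ g.IsHomogeneous e ∧ MvPolynomial.eval x.rep g ≠ 0 ∧
      ∀ y ∈ X, MvPolynomial.eval y.rep g ≠ 0 →
        (fun i : Fin (N + 1) => MvPolynomial.eval y.rep (F i)) ≠ 0 ∧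
        (fun i : Fin (N + 1) => MvPolynomial.eval y.rep (F i)) ∈ (Φ y).submodule

/-- A set of natural numbers is exponentially sparse if there are `m₀` and `δ > 0` such that for all
large `n` it has at most `m₀` elements between `n` and `exp (δ n)`. -/
def ExpSparse (E : Set ℕ) : Prop :=
  ∃ (m₀ : ℕ) (δ : ℝ), 0 < δ ∧
    ∀ᶠ n : ℕ in Filter.atTop, {m ∈ E | n ≤ m ∧ (m : ℝ) ≤ Real.exp (δ * n)}.ncard ≤ m₀

lemma expSparse_of {E : Set ℕ} (h : Pool.Agent.R847.Gap.ExpSparse E) : ExpSparse E := by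
  obtain ⟨m₀, δ, n₁, hδ, h1⟩ := h
  refine ⟨m₀, δ, hδ, Filter.eventually_atTop.2 ⟨n₁, fun n hn => ?_⟩⟩
  have hfin : {m ∈ E | n ≤ m ∧ (m : ℝ) ≤ Real.exp (δ * n)}.Finite := by
    apply (Set.finite_le_nat ⌊Real.exp (δ * n)⌋₊).subset
    intro m hm
    exact Nat.le_floor hm.2.2
  rw [Set.ncard_eq_toFinset_card _ hfin]
  apply h1 n hn
  intro m hm
  rw [Set.Finite.mem_toFinset] at hm
  exact hm

/-- **A gap principle for arbitrary endomorphisms of quasiprojective varieties.** -/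
theorem result (N : ℕ) (X : Set (Projectivization ℂ (Fin (N + 1) → ℂ))) (hX : LocallyClosed X)
    (Φ : Projectivization ℂ (Fin (N + 1) → ℂ) → Projectivization ℂ (Fin (N + 1) → ℂ))
    (hΦ : RegularSelfMap X Φ)
    (V W : Set (Projectivization ℂ (Fin (N + 1) → ℂ))) (hV : Closed V) (hW : Closed W)
    (hinv : ∀ z ∈ X, z ∈ W → Φ z ∈ W)
    (htrap : ∀ z ∈ X, z ∈ W → ∀ m : ℕ, 0 < m → ∃ t : ℕ, Φ^[m * t] z ∉ V)
    (α : Projectivization ℂ (Fin (N + 1) → ℂ)) (hα : α ∈ X) (hαW : α ∈ W) :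
    ExpSparse {n : ℕ | Φ^[n] α ∈ V} := by
  obtain ⟨A, B, hA, hB, hXAB⟩ := hX
  obtain ⟨C, hC, hCV⟩ := hV
  obtain ⟨C', hC', hCW⟩ := hW
  let D : Pool.Agent.R847.QP.Reg N := ⟨X, A, B, hA, hB, hXAB, Φ, hΦ.1, hΦ.2⟩
  have h := Pool.Agent.T2H18.qp_gap D C C' hC hC'
    (fun p hp hpW => (hCW _).1 (hinv p hp ((hCW p).2 hpW))) α hα ((hCW α).1 hαW)
    (fun p hp hpW m hm => by
      obtain ⟨t, ht⟩ := htrap p hp ((hCW p).2 hpW) m hm
      rw [hCV] at ht
      push Not at ht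
      exact ⟨t, ht⟩)
  have e : {n : ℕ | Φ^[n] α ∈ V} = {n : ℕ | ∀ F ∈ C, MvPolynomial.eval (D.Φ^[n] α).rep F = 0} := by
    ext n
    exact hCV _
  rw [e]
  exact expSparse_of h

end Pool.Agent.Results.MP_295d38_ag.QuasiprojectiveGap
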