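import Pool.Agent.T2H18.SkewC

/-!
# MP_295d38_ag: skew products of relative dimension one over étale maps

Let `X` be a locally closed subset of `A^M × P^1` over `ℂ` and let
`Φ(x, [v]) = (G(x), [h_0(x; v) : h_1(x; v)])` be an endomorphism of `X`, where `G` is a polynomial
self-map of `A^M` and `h_0`, `h_1` are homogeneous of the same degree `d` in `v = (v_0, v_1)` and
have polynomial coefficients in `x`. Suppose that `G` is étale at the points `x`, `(x, [v]) ∈ X`
(its Jacobian determinant is not zero there). Nothing is assumed about the maps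
`[v] ↦ [h(x; v)]` of the fibres: they can be ramified, of any degree, constant, or
superattracting, and this can change with `x`.

**Theorem.** For every point `α` of `X` and every closed subset `V` the set of the `n` with
`Φ^n(α) ∈ V` is the union of a finite union of arithmetic progressions and of an exponentially
sparse set (which has at most `M` elements between `n` and `exp (δ n)`, for all large `n`).

Examples: `X = A^M × A^1` (that is, `v_1 ≠ 0`, `h_1 = v_1 ^ d`), `G` an étale polynomial map of `A^M`,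
for example an automorphism such as a product of Hénon maps and of affine maps, and
`Φ(x, y) = (G(x), h(x, y))` with an arbitrary polynomial `h`; `X = Y × P^1` for a closed subset `Y` of
`A^M`, for example `Y = G_m^r` and `G` a monomial map, and `h_0`, `h_1` without common zeros.

The proof is `p`-adic. In a residue class of the orbit the `x`-coordinates are `p`-adically analytic
in the time `n`. There is a shadow, a point whose orbit is analytic in `n` in all coordinates, has the
same `x`-coordinates and is exponentially near. As the fibres have dimension one, the two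
orbits differ by one small parameter `κ_n`. The value of an equation of `V` at `Φ^n(α)` is
`∑ f_j(n) κ_n ^ j` with analytic `f_j`. If they do not all vanish identically then `f_j(n)` is
exponentially small at the return times `n` for the first `j` with `f_j ≠ 0`, so these
are exponentially sparse.
-/

set_option autoImplicit false

open MvPolynomial

namespace Pool.Agent.Results.MP_295d38_ag.RelativeDimensionOne

/-- A polynomial in `x_1, …, x_M, v_0, v_1` which is homogeneous of degree `e` in `v_0, v_1`. -/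
def Form {M : ℕ} (P : MvPolynomial (Fin M ⊕ Fin 2) ℂ) (e : ℕ) : Prop :=
  ∀ (t : ℂ) (x : Fin M → ℂ) (v : Fin 2 → ℂ),
    eval (Sum.elim x fun s => t * v s) P = t ^ e * eval (Sum.elim x v) P

/-- `z = (x, v)` are the coordinates of a point of the locally closed subset of `A^M × P^1` where the
members of `A` vanish and some `B j` does not vanish. -/
def InX {M l : ℕ} (A : Set (MvPolynomial (Fin M ⊕ Fin 2) ℂ))
    (B : Fin l → MvPolynomial (Fin M ⊕ Fin 2) ℂ) (z : Fin M ⊕ Fin 2 → ℂ) : Prop :=
  (∃ s : Fin 2, z (Sum.inr s) ≠ 0) ∧ (∀ P ∈ A, eval z P = 0) ∧ ∃ j, eval z (B j) ≠ 0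

/-- The map `(x, v) ↦ (G(x), h(x; v))`. -/
noncomputable def skewMap {M : ℕ} (G : Fin M → MvPolynomial (Fin M) ℂ)
    (h : Fin 2 → MvPolynomial (Fin M ⊕ Fin 2) ℂ) (z : Fin M ⊕ Fin 2 → ℂ) : Fin M ⊕ Fin 2 → ℂ :=
  Sum.elim (fun i => eval (fun j => z (Sum.inl j)) (G i)) fun s => eval z (h s)

/-- The Jacobian determinant of `G` at the point `x`. -/
noncomputable def jacobian {M : ℕ} (G : Fin M → MvPolynomial (Fin M) ℂ) (x : Fin M → ℂ) : ℂ :=
  (Matrix.of fun i j => eval x (pderiv j (G i))).det

/-- A set of natural numbers is exponentially sparse if there are `m₀` and `δ > 0` such that for all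
large `n` it has at most `m₀` elements between `n` and `exp (δ n)`. -/
def ExpSparse (E : Set ℕ) : Prop :=
  ∃ (m₀ : ℕ) (δ : ℝ), 0 < δ ∧
    ∀ᶠ n : ℕ in Filter.atTop, {m ∈ E | n ≤ m ∧ (m : ℝ) ≤ Real.exp (δ * n)}.ncard ≤ m₀

lemma expSparse_of {E : Set ℕ} (h : Pool.Agent.R847.Gap.ExpSparse E) : ExpSparse E := by
  obtain ⟨m₀, δ, n₁, hδ, h1⟩ := h
  refine ⟨m₀, δ, hδ, Filter.eventually_atTop.2 ⟨n₁, fun n hn => ?_⟩⟩
  have hfin : {m ∈ E | n ≤ m ∧ (m : ℝ) ≤ Real.exp (δ * n)}.Finite := by
    apply (Set.finite_le_nat ⌊Real.exp (δ * n)⌋₊).subset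
    intro m hm
    exact Nat.le_floor hm.2.2
  rw [Set.ncard_eq_toFinset_card _ hfin]
  apply h1 n hn
  intro m hm
  rw [Set.Finite.mem_toFinset] at hm
  exact hm

lemma skewMap_eq {M : ℕ} (G : Fin M → MvPolynomial (Fin M) ℂ)
    (h : Fin 2 → MvPolynomial (Fin M ⊕ Fin 2) ℂ) :
    skewMap G h = Pool.Agent.H936R2.pt (Pool.Agent.T2H18.skew2 G h) := by
  funext z i
  cases i with
  | inl i =>
    simp only [skewMap, Sum.elim_inl, Pool.Agent.H936R2.pt, Pool.Agent.T2H18.skew2]
    rw [eval_rename]
    rfl
  | inr s => rfl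

/-- **Dynamical Mordell-Lang up to an exponentially sparse set, for endomorphisms of relative
dimension one over étale maps.** -/
theorem result (M l d : ℕ) (G : Fin M → MvPolynomial (Fin M) ℂ)
    (h : Fin 2 → MvPolynomial (Fin M ⊕ Fin 2) ℂ) (hh : ∀ s, Form (h s) d)
    (A : Set (MvPolynomial (Fin M ⊕ Fin 2) ℂ)) (B : Fin l → MvPolynomial (Fin M ⊕ Fin 2) ℂ)
    (hX : ∀ z, InX A B z → InX A B (skewMap G h z))
    (hG : ∀ z, InX A B z → jacobian G (fun i => z (Sum.inl i)) ≠ 0)
    (α : Fin M ⊕ Fin 2 → ℂ) (hα : InX A B α)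
    (V : Set (MvPolynomial (Fin M ⊕ Fin 2) ℂ)) (hV : ∀ P ∈ V, ∃ e, Form P e) :
    ∃ (T : Finset (ℕ × ℕ)) (E : Set ℕ), ExpSparse E ∧
      {n : ℕ | ∀ P ∈ V, eval ((skewMap G h)^[n] α) P = 0} =
        {n : ℕ | ∃ q ∈ T, ∃ m : ℕ, n = q.1 * m + q.2} ∪ E := by
  rw [skewMap_eq] at *
  obtain ⟨T, E, hE, hTE⟩ := Pool.Agent.T2H18.skew_complex G h d hh A B hX hG α hα V hV
  exact ⟨T, E, expSparse_of hE, hTE⟩

end Pool.Agent.Results.MP_295d38_ag.RelativeDimensionOne
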