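import Pool.Agent.T2H18.Main

/-!
# MP_295d38_ag: a height gap, and dynamical Mordell-Lang below the gap

Let `K` be a number field, `f` a polynomial self-map of the affine space `A^N` over `K` and
`α ∈ K^N`. The logarithmic height `h = logHeight₁` is the one of Mathlib (relative to `K`).

**Theorem.** For `K`, `N`, `b ≥ 1` there are `c > 0` and `k ≥ 1` such that for *all* polynomial
self-maps `f` of `A^N` with `b`-integral coefficients and *all* `b`-integral points `α`:

1. *(height gap)* if a polynomial function `g` on `A^N` has `h(g(f^n(α))) ≤ c n` for all large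
   `n`, then `g(f^n(α))` is, for large `n`, a polynomial function of `n` on every residue class
   modulo `k`. So there is no orbit and no polynomial `g` for which `h(g(f^n(α)))` grows faster
   than `log n` but slower than `c n`.
2. *(dynamical Mordell-Lang)* if `g = (g_1, …, g_l) : A^N → A^l` consists of such functions, then
   for every closed subset `W` of `A^l` over `ℂ` the set of the `n` with `f^n(α) ∈ g⁻¹(W)` is a
   finite union of arithmetic progressions. With `g = (X_1, …, X_N)`: if
   `h(f^n(α)_i) ≤ c n` for all `i` and all large `n`, then the dynamical Mordell-Lang property holds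
   for `(f, α)` and all closed subsets of `A^N` over `ℂ`.

Nothing is assumed about the ramification of `f` (it need not be étale, finite or dominant).

Definitions: `orb f α n` is the point `f^n(α)`; `BIntegral b x`: some `b ^ e x` is an algebraic
integer (all coefficients and coordinates are `b`-integral for a suitable `b`);
`ArithProg S`: `S` is a finite union of sets `{q₁ m + q₂ : m ≥ 0}` (`q₁ = 0` allowed).
-/

set_option autoImplicit false

open MvPolynomial Filter Height

namespace Pool.Agent.Results.MP_295d38_ag.SlowHeightGrowth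

/-- The point `f^n(α)`. -/
noncomputable def orb {K : Type} [Field K] {N : ℕ} (f : Fin N → MvPolynomial (Fin N) K)
    (α : Fin N → K) (n : ℕ) : Fin N → K :=
  (fun (x : Fin N → K) i => eval x (f i))^[n] α

/-- `x` is integral outside of the primes dividing `b`. -/
def BIntegral {K : Type} [Field K] (b : ℕ) (x : K) : Prop :=
  ∃ e : ℕ, IsIntegral ℤ ((b : K) ^ e * x)

/-- `S` is a finite union of arithmetic progressions (with difference zero allowed). -/
def ArithProg (S : Set ℕ) : Prop :=
  ∃ T : Finset (ℕ × ℕ), S = {n : ℕ | ∃ q ∈ T, ∃ m : ℕ, n = q.1 * m + q.2}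

/-- **A height gap, and dynamical Mordell-Lang below the gap.** -/
theorem result (K : Type) [Field K] [NumberField K] (b N : ℕ) (hb : b ≠ 0) :
    ∃ (c : ℝ) (k : ℕ), 0 < c ∧ 0 < k ∧
      ∀ (f : Fin N → MvPolynomial (Fin N) K) (α : Fin N → K),
        (∀ i m, BIntegral b ((f i).coeff m)) → (∀ i, BIntegral b (α i)) →
        (∀ g : MvPolynomial (Fin N) K,
          (∀ᶠ n : ℕ in atTop, logHeight₁ (eval (orb f α n) g) ≤ c * n) →
          ∀ r : ℕ, ∃ Q : Polynomial K, ∀ᶠ m : ℕ in atTop,
            eval (orb f α (r + k * m)) g = Q.eval (m : K)) ∧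
        (∀ (l : ℕ) (g : Fin l → MvPolynomial (Fin N) K),
          (∀ j, ∀ᶠ n : ℕ in atTop, logHeight₁ (eval (orb f α n) (g j)) ≤ c * n) →
          ∀ (σ : K →+* ℂ) (W : Set (MvPolynomial (Fin l) ℂ)),
            ArithProg {n : ℕ | ∀ F ∈ W, eval (fun j => σ (eval (orb f α n) (g j))) F = 0}) := by
  obtain ⟨c, k, hc, hk, h⟩ := Pool.Agent.T2H18.gap_observable K b N hb
  refine ⟨c, k, hc, hk, fun f α hf hα => ⟨fun g hg r => h f α hf hα g hg r, ?_⟩⟩
  intro l g hg σ W
  exact Pool.Agent.T2H18.return_of_poly K σ k l hk (fun n j => eval (orb f α n) (g j))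
    (fun j r => h f α hf hα (g j) (hg j) r) W

end Pool.Agent.Results.MP_295d38_ag.SlowHeightGrowth
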