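import Pool.Agent.T2H18.Alg

/-!
# MP_295d38_ag: families of rational maps over the translation

Let `R_1(x, ·), …, R_r(x, ·)` be families of self-maps of `P^1`, with parameter `x ∈ A^1`:
`R_i(x, [v]) = [h_{i0}(x; v) : h_{i1}(x; v)]`, where `h_{i0}`, `h_{i1}` are homogeneous of degree
`d_i` in `v = (v_0, v_1)`, have coefficients that are polynomials in `x`, and have no common zero
on `A^1 × P^1`. Consider the endomorphism

`Φ(x, y_1, …, y_r) = (x + 1, R_1(x, y_1), …, R_r(x, y_r))` of `A^1 × (P^1)^r`.

**Theorem.** Suppose that `Φ` is defined over the algebraic numbers and that those of the degrees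
`d_i` that are at least `2` are different from each other (the others can be `0` or `1`, and these
can be repeated). Then for every algebraic point `α` and every closed subset `V` (over `ℂ`) the
return set `{n : Φ^n(α) ∈ V}` is a finite union of arithmetic progressions.

For `r = 1` these are all endomorphisms `(x + 1, R(x, y))` of the surface `A^1 × P^1` over the
algebraic numbers (and all `(x + 1, R(x, y))` on `A^2` by taking `v_1 ≠ 0`). The fibre maps can be
ramified, and their ramification can meet the orbit. So, for instance, for a sequence with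
`y_{n+1} = R(n, y_n)` and each polynomial `P(x, y)` the set of the `n` with `P(n, y_n) = 0` is a finite
union of arithmetic progressions.

Idea of the proof. If `d_i ≥ 2` there are two possibilities: either the heights of `y_{i,n}` are
`O(log n)` or they grow like `d_i ^ n`. In the first case one takes a prime `p` and a residue class
of times on which there is a `p`-adically analytic shadow of the orbit, and shows that it is equal
to the orbit: the coordinate `w` of the orbit is exponentially near to the shadow `g`; one
constructs (Siegel's lemma) a polynomial relation `P(m, g(m)) = 0` in which `P` has integral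
coefficients, then `P(m, w(m))` is exponentially small and of small height and hence `0` for all
large `m`, and so `w(m)` and `g(m)` are both among the roots of a polynomial whose
discriminant has logarithmic height; so they cannot be near without being equal. So the orbit is
analytic in these coordinates, and as well in those of degrees `0` and `1`. In the second case the
coordinate with the largest degree is eliminated by heights.
-/

set_option autoImplicit false

open MvPolynomial

namespace Pool.Agent.Results.MP_295d38_ag.TranslationSkewProducts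

/-- The point with first coordinate `x` and other coordinates `v`. -/
def pt {κ : Type} (x : ℂ) (v : κ → ℂ) : Option κ → ℂ := fun o => o.elim x v

/-- The map `Φ(x, v_1, …, v_r) = (x + 1, h_1(x; v_1), …, h_r(x; v_r))`, in the coordinates
`v_i ∈ ℂ^2` of the points of `P^1`. -/
noncomputable def skewMap {r : ℕ} (h : Fin r → Fin 2 → MvPolynomial (Option (Fin 2)) ℂ)
    (z : ℂ × (Fin r → Fin 2 → ℂ)) : ℂ × (Fin r → Fin 2 → ℂ) :=
  (z.1 + 1, fun i s => eval (pt z.1 (z.2 i)) (h i s))

/-- A polynomial in `x` and `v_0, v_1` that is homogeneous of degree `d` in `v_0, v_1`. -/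
def Form (P : MvPolynomial (Option (Fin 2)) ℂ) (d : ℕ) : Prop :=
  ∀ a ∈ P.support, a (some 0) + a (some 1) = d

/-- A polynomial in `x` and `v_{i0}, v_{i1}`, `i < r`, that is homogeneous of some degree `m i` in
`v_{i0}, v_{i1}` for every `i`. -/
def MultiHom {r : ℕ} (P : MvPolynomial (Option (Fin r × Fin 2)) ℂ) : Prop :=
  ∃ m : Fin r → ℕ, ∀ a ∈ P.support, ∀ i, a (some (i, 0)) + a (some (i, 1)) = m i

/-- **Dynamical Mordell-Lang for families of rational maps over the translation.** -/
theorem result (r : ℕ) (d : Fin r → ℕ) (hd : ∀ i j, 2 ≤ d i → d i = d j → i = j)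
    (h : Fin r → Fin 2 → MvPolynomial (Option (Fin 2)) ℂ) (hh : ∀ i s, Form (h i s) (d i))
    (hne : ∀ i x v, v ≠ 0 → ∃ s, eval (pt x v) (h i s) ≠ 0)
    (halg : ∀ i s a, IsAlgebraic ℚ ((h i s).coeff a))
    (α : ℂ × (Fin r → Fin 2 → ℂ)) (hα : ∀ i, α.2 i ≠ 0)
    (hα1 : IsAlgebraic ℚ α.1) (hα2 : ∀ i s, IsAlgebraic ℚ (α.2 i s))
    (V : Set (MvPolynomial (Option (Fin r × Fin 2)) ℂ)) (hV : ∀ P ∈ V, MultiHom P) :
    ∃ T : Finset (ℕ × ℕ),
      {n : ℕ | ∀ P ∈ V, eval (pt ((skewMap h)^[n] α).1 fun q => ((skewMap h)^[n] α).2 q.1 q.2) P
        = 0} = {n : ℕ | ∃ q ∈ T, ∃ m : ℕ, n = q.1 * m + q.2} := by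
  refine Pool.Agent.T2H18.split_alg d hd h hh halg ?_ (fun n => ((skewMap h)^[n] α).1)
    (fun n => ((skewMap h)^[n] α).2) hα1 hα2 ?_ hα ?_ V hV
  · rintro i z ⟨s, hs⟩
    obtain ⟨t, ht⟩ := hne i (z none) (fun s => z (some s)) (fun h0 => hs (congrFun h0 s))
    refine ⟨t, ?_⟩
    have h1 : pt (z none) (fun s => z (some s)) = z := by
      funext o
      cases o <;> rfl
    rwa [h1] at ht
  · intro n
    simp only [Function.iterate_succ_apply']
    rfl
  · intro n i s
    simp only [Function.iterate_succ_apply']
    rfl

end Pool.Agent.Results.MP_295d38_ag.TranslationSkewProducts
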